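import Pool.Agent.Helper20.RG.St1

set_option autoImplicit false

open MeasureTheory Set Filter Topology
open scoped ENNReal RealInnerProductSpace

namespace Pool.Agent.Helper70.RG

open Pool.Agent.Helper20.RG
open Pool.Agent.Helper68.LM (Pl BB Bd Av HL ft fm DQ)

theorem hPAR (hPT : StPT) : StPAR := by
  intro s s' A B hss hA hB
  obtain ⟨hpt, hpt2, hnorm, hinner, hcont, hlin, -⟩ := hPT
  have hm0 : Measurable fun y : Pl => y 0 := (PiLp.continuous_apply 2 (fun _ : Fin 2 => ℝ) 0).measurable
  have hm1 : Measurable fun y : Pl => y 1 := (PiLp.continuous_apply 2 (fun _ : Fin 2 => ℝ) 1).measurable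
  have hpr : ∀ t : ℝ, Measurable (pr t) := by
    intro t
    unfold pr
    exact hm1.sub (hm0.const_mul t)
  have hprpt : ∀ t a b : ℝ, pr t (pt a b) = b - t * a := by
    intro t a b
    unfold pr
    rw [(hpt a b).1, (hpt a b).2]
  set S : Set Pl := {y : Pl | pr s y ∈ A ∧ pr s' y ∈ B} with hS
  have hSm : MeasurableSet S := (hpr s hA).inter (hpr s' hB)
  have hc : s - s' ≠ 0 := sub_ne_zero.mpr hss
  have e1 : volume S = ∫⁻ a : ℝ, ∫⁻ b : ℝ, S.indicator (fun _ => (1 : ℝ≥0∞)) (pt a b) := by
    rw [← hlin _ (measurable_const.indicator hSm), lintegral_indicator_const hSm, one_mul]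
  have e2 : ∀ a b : ℝ, S.indicator (fun _ => (1 : ℝ≥0∞)) (pt a (b + s * a)) =
      A.indicator (fun _ => (1 : ℝ≥0∞)) b * B.indicator (fun _ => (1 : ℝ≥0∞)) (b + (s - s') * a) := by
    intro a b
    have h1 : pt a (b + s * a) ∈ S ↔ b ∈ A ∧ b + (s - s') * a ∈ B := by
      rw [hS]
      simp only [Set.mem_setOf_eq, hprpt]
      rw [show b + s * a - s * a = b by ring, show b + s * a - s' * a = b + (s - s') * a by ring]
    by_cases hb : b ∈ A
    · by_cases hb' : b + (s - s') * a ∈ B
      · rw [Set.indicator_of_mem (h1.mpr ⟨hb, hb'⟩), Set.indicator_of_mem hb, Set.indicator_of_mem hb',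
          one_mul]
      · rw [Set.indicator_of_notMem (fun h => hb' (h1.mp h).2), Set.indicator_of_notMem hb', mul_zero]
    · rw [Set.indicator_of_notMem (fun h => hb (h1.mp h).1), Set.indicator_of_notMem hb, zero_mul]
  have e3 : ∀ a : ℝ, ∫⁻ b : ℝ, S.indicator (fun _ => (1 : ℝ≥0∞)) (pt a b) =
      ∫⁻ b : ℝ, A.indicator (fun _ => (1 : ℝ≥0∞)) b *
        B.indicator (fun _ => (1 : ℝ≥0∞)) (b + (s - s') * a) := by
    intro a
    rw [← lintegral_add_right_eq_self (fun b => S.indicator (fun _ => (1 : ℝ≥0∞)) (pt a b)) (s * a)]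
    exact lintegral_congr (fun b => e2 a b)
  have e4 : ∀ b : ℝ, ∫⁻ a : ℝ, B.indicator (fun _ => (1 : ℝ≥0∞)) (b + (s - s') * a) =
      ENNReal.ofReal (1 / |s - s'|) * volume B := by
    intro b
    have h1 : MeasurableSet ((fun a : ℝ => b + (s - s') * a) ⁻¹' B) :=
      (measurable_const.add (measurable_id.const_mul _)) hB
    have h2 : ∀ a : ℝ, B.indicator (fun _ => (1 : ℝ≥0∞)) (b + (s - s') * a) =
        ((fun a : ℝ => b + (s - s') * a) ⁻¹' B).indicator (fun _ => (1 : ℝ≥0∞)) a := by
      intro a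
      by_cases h : b + (s - s') * a ∈ B
      · rw [Set.indicator_of_mem h, Set.indicator_of_mem (show a ∈ _ from h)]
      · rw [Set.indicator_of_notMem h, Set.indicator_of_notMem (show a ∉ _ from h)]
    rw [lintegral_congr h2, lintegral_indicator_const h1, one_mul]
    have h3 : (fun a : ℝ => b + (s - s') * a) ⁻¹' B =
        (fun a : ℝ => (s - s') * a) ⁻¹' ((fun x : ℝ => b + x) ⁻¹' B) := rfl
    rw [h3, Real.volume_preimage_mul_left hc, measure_preimage_add, abs_inv, one_div]
  have hmA : Measurable (A.indicator (fun _ => (1 : ℝ≥0∞))) := measurable_const.indicator hA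
  have hmB : Measurable (B.indicator (fun _ => (1 : ℝ≥0∞))) := measurable_const.indicator hB
  rw [e1, lintegral_congr e3, lintegral_lintegral_swap]
  · have e5 : ∀ b : ℝ, ∫⁻ a : ℝ, A.indicator (fun _ => (1 : ℝ≥0∞)) b *
        B.indicator (fun _ => (1 : ℝ≥0∞)) (b + (s - s') * a) =
        (ENNReal.ofReal (1 / |s - s'|) * volume B) * A.indicator (fun _ => (1 : ℝ≥0∞)) b := by
      intro b
      rw [lintegral_const_mul, e4, mul_comm]
      exact hmB.comp (measurable_const.add (measurable_id.const_mul _))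
    rw [lintegral_congr e5, lintegral_const_mul _ hmA, lintegral_indicator_const hA, one_mul]
    ring
  · have h1 : Measurable fun p : ℝ × ℝ => A.indicator (fun _ => (1 : ℝ≥0∞)) p.2 *
        B.indicator (fun _ => (1 : ℝ≥0∞)) (p.2 + (s - s') * p.1) :=
      (hmA.comp measurable_snd).mul (hmB.comp (measurable_snd.add (measurable_fst.const_mul _)))
    exact h1.aemeasurable

end Pool.Agent.Helper70.RG
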