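import Pool.Agent.Helper20.RG.St1

set_option autoImplicit false

open MeasureTheory Set Filter Topology
open scoped ENNReal RealInnerProductSpace

namespace Pool.Agent.Helper70.RG

open Pool.Agent.Helper20.RG
open Pool.Agent.Helper68.LM (Pl BB Bd Av HL ft fm DQ)

theorem hSC (hPT : StPT) : StSC := by
  intro C₀ hC₀
  refine ⟨4 * C₀, by positivity, ?_⟩
  intro u s c m m' R K A σ hS ξ y ℓ hξ hy hy1 hℓ
  obtain ⟨hpt, hpt2, hnorm, hinner, -⟩ := hPT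
  have hr : 0 < ‖ξ‖ := norm_pos_iff.mpr hξ
  have hN : (0 : ℝ) < (2 : ℝ) ^ u := by positivity
  have hin : ∀ t : ℝ, ⟪E t, ξ⟫ = ξ 0 + t * ξ 1 := by
    intro t
    rw [hinner]
    have h := hpt 1 t
    unfold E
    rw [h.1, h.2]
    ring
  set S : Set ℕ := {j : ℕ | j < 2 ^ u ∧ y ≤ ‖ξ‖ * (2 : ℝ) ^ (-(m' j : ℤ)) ∧
    ℓ * |⟪E (s j), ξ⟫| ≤ 1 / y} with hSdef
  have hfin : ∀ (w T τ : ℝ), ({j : ℕ | j < 2 ^ u ∧ w ≤ (2 : ℝ) ^ u * (2 : ℝ) ^ (-(m' j : ℤ)) ∧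
      |s j - τ| ≤ T}).Finite := by
    intro w T τ
    exact (Set.finite_lt_nat (2 ^ u)).subset (fun j hj => hj.1)
  have hw : 0 < (2 : ℝ) ^ u * y / ‖ξ‖ := by positivity
  have hwj : ∀ j ∈ S, (2 : ℝ) ^ u * y / ‖ξ‖ ≤ (2 : ℝ) ^ u * (2 : ℝ) ^ (-(m' j : ℤ)) := by
    intro j hj
    rw [div_le_iff₀ hr]
    have := hj.2.1
    nlinarith [mul_le_mul_of_nonneg_left this hN.le]
  have hB : 0 < 1 / ((2 : ℝ) ^ u * ℓ * y ^ 2) := by positivity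
  have hsl : ∀ j ∈ S, |⟪E (s j), ξ⟫| ≤ 1 / (ℓ * y) := by
    intro j hj
    have h := hj.2.2
    rw [le_div_iff₀ (by positivity)]
    rw [le_div_iff₀ hy] at h
    nlinarith
  by_cases hc : ‖ξ‖ / 4 ≤ |ξ 1|
  · have h1 : 0 < |ξ 1| := lt_of_lt_of_le (by positivity) hc
    have h10 : ξ 1 ≠ 0 := abs_pos.mp h1
    have hsub : S ⊆ {j : ℕ | j < 2 ^ u ∧ (2 : ℝ) ^ u * y / ‖ξ‖ ≤
        (2 : ℝ) ^ u * (2 : ℝ) ^ (-(m' j : ℤ)) ∧ |s j - (-(ξ 0) / ξ 1)| ≤ 4 / (ℓ * y * ‖ξ‖)} := by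
      intro j hj
      refine ⟨hj.1, hwj j hj, ?_⟩
      have e1 : s j - (-(ξ 0) / ξ 1) = ⟪E (s j), ξ⟫ / ξ 1 := by
        rw [hin]
        field_simp
        ring
      rw [e1, abs_div, div_le_iff₀ h1]
      have h2 := hsl j hj
      have h3 : 1 / (ℓ * y) = 4 / (ℓ * y * ‖ξ‖) * (‖ξ‖ / 4) := by
        field_simp
      calc |⟪E (s j), ξ⟫| ≤ 1 / (ℓ * y) := h2
        _ = 4 / (ℓ * y * ‖ξ‖) * (‖ξ‖ / 4) := h3
        _ ≤ 4 / (ℓ * y * ‖ξ‖) * |ξ 1| := by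
            apply mul_le_mul_of_nonneg_left hc
            positivity
    have h2 : (S.ncard : ℝ) ≤ C₀ * (1 + 4 / (ℓ * y * ‖ξ‖) / ((2 : ℝ) ^ u * y / ‖ξ‖)) := by
      refine le_trans ?_ (hS.cnt _ _ (-(ξ 0) / ξ 1) hw (by positivity))
      exact_mod_cast Set.ncard_le_ncard hsub (hfin _ _ _)
    have h3 : 4 / (ℓ * y * ‖ξ‖) / ((2 : ℝ) ^ u * y / ‖ξ‖) = 4 * (1 / ((2 : ℝ) ^ u * ℓ * y ^ 2)) := by
      field_simp
    rw [h3] at h2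
    nlinarith [mul_pos hC₀ hB]
  · push Not at hc
    have h0 : 3 / 4 * ‖ξ‖ ≤ |ξ 0| := by
      have := (hnorm ξ).2.2.1
      linarith
    rcases Set.eq_empty_or_nonempty S with he | ⟨j₀, hj₀⟩
    · rw [he]
      simp only [Set.ncard_empty, Nat.cast_zero]
      positivity
    · have hlow : ‖ξ‖ / 2 ≤ |⟪E (s j₀), ξ⟫| := by
        rw [hin]
        have hs := hS.slope j₀ hj₀.1
        have h1 : |s j₀ * ξ 1| ≤ ‖ξ‖ / 4 := by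
          rw [abs_mul]
          nlinarith [abs_nonneg (ξ 1), abs_nonneg (s j₀)]
        have h2 : |ξ 0| ≤ |ξ 0 + s j₀ * ξ 1| + |s j₀ * ξ 1| := by
          have := abs_sub (ξ 0 + s j₀ * ξ 1) (s j₀ * ξ 1)
          simpa using this
        linarith
      have hrl : ‖ξ‖ ≤ 2 / (ℓ * y) := by
        have := hsl j₀ hj₀
        have h2 : ‖ξ‖ / 2 ≤ 1 / (ℓ * y) := le_trans hlow this
        have h3 : 2 / (ℓ * y) = 2 * (1 / (ℓ * y)) := by ring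
        rw [h3]
        linarith
      have hsub : S ⊆ {j : ℕ | j < 2 ^ u ∧ (2 : ℝ) ^ u * y / ‖ξ‖ ≤
          (2 : ℝ) ^ u * (2 : ℝ) ^ (-(m' j : ℤ)) ∧ |s j - 0| ≤ 1} := by
        intro j hj
        refine ⟨hj.1, hwj j hj, ?_⟩
        rw [sub_zero]
        exact hS.slope j hj.1
      have h2 : (S.ncard : ℝ) ≤ C₀ * (1 + 1 / ((2 : ℝ) ^ u * y / ‖ξ‖)) := by
        refine le_trans ?_ (hS.cnt _ _ 0 hw (by norm_num))
        exact_mod_cast Set.ncard_le_ncard hsub (hfin _ _ _)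
      have h3 : 1 / ((2 : ℝ) ^ u * y / ‖ξ‖) ≤ 2 * (1 / ((2 : ℝ) ^ u * ℓ * y ^ 2)) := by
        have e1 : 1 / ((2 : ℝ) ^ u * y / ‖ξ‖) = ‖ξ‖ / ((2 : ℝ) ^ u * y) := by
          field_simp
        have e2 : 2 * (1 / ((2 : ℝ) ^ u * ℓ * y ^ 2)) = (2 / (ℓ * y)) / ((2 : ℝ) ^ u * y) := by
          field_simp
        rw [e1, e2]
        exact div_le_div_of_nonneg_right hrl (by positivity)
      nlinarith [mul_pos hC₀ hB, mul_le_mul_of_nonneg_left h3 hC₀.le]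

end Pool.Agent.Helper70.RG
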